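import Pool.Agent.R761.PosId.Stm

/-! Piece PI-SEM: a certified separation of two lattice terms gives a failure in the completion of
a poset of regions of a central arrangement in `ℝ⁴`. -/

namespace R761.PosId

open R761.BipLat Pool.Agent.H178R3 Pool.Agent.H178R3.CentralArrangement

namespace SEM

/-! ### Abstract part -/

section abstract

variable {Q : Type} [PartialOrder Q]

theorem le_prin {a : DedekindCut Q} {R0 : Q} (h : ∀ R, DedekindCut.principal R ≤ a → R ≤ R0) :
    a ≤ DedekindCut.principal R0 := by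
  rw [DedekindCut.le_principal_iff, ← DedekindCut.upperBounds_left, mem_upperBounds]
  intro r hr
  exact h r (DedekindCut.principal_le_iff.2 hr)

theorem prin_le {a : DedekindCut Q} {R0 : Q} (h : ∀ R, a ≤ DedekindCut.principal R → R0 ≤ R) :
    DedekindCut.principal R0 ≤ a := by
  rw [DedekindCut.principal_le_iff, ← DedekindCut.lowerBounds_right, mem_lowerBounds]
  intro r hr
  exact h r (DedekindCut.le_principal_iff.2 hr)

/-- A poset that is represented by sets of points. -/
structure Rep (P : List Pt) (Fs : List Pl) (ct : Q → Pt → Prop) : Prop where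
  le : ∀ R R' : Q, R ≤ R' ↔ ∀ p ∈ P, ct R p → ct R' p
  cv : ∀ (R : Q) (q y z : Pt), Btw q y z → ct R y → ct R z → ct R q
  cv' : ∀ (R : Q) (q y z : Pt), Btw q y z → ¬ ct R y → ¬ ct R z → ¬ ct R q
  pos : ∀ F ∈ Fs, ∃ R : Q, ∀ p ∈ P, (ct R p ↔ 0 < val F p)
  neg : ∀ F ∈ Fs, ∃ R : Q, ∀ p ∈ P, (ct R p ↔ val F p < 0)

variable {P : List Pt} {Fs : List Pl} {ct : Q → Pt → Prop}

/-- The assignment. -/
noncomputable def asg (P : List Pt) (Fs : List Pl) (ct : Q → Pt → Prop) (x : ℕ) : DedekindCut Q :=
  sSup {d | ∃ R : Q, ∃ F ∈ Fs, ∃ q ∈ P, 0 < val F q ∧ (∀ p ∈ P, p ≠ q → val F p < 0) ∧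
    q.lab x = true ∧ (∀ p ∈ P, (ct R p ↔ 0 < val F p)) ∧ d = DedekindCut.principal R}

theorem leaf_aux (hr : Rep P Fs ct) {F : Pl} {q : Pt} (hq : q ∈ P) (hF : F ∈ Fs)
    (h0 : 0 < val F q) (h1 : ∀ p ∈ P, p ≠ q → val F p < 0) {RF NF : Q}
    (hRF : ∀ p ∈ P, (ct RF p ↔ 0 < val F p)) (hNF : ∀ p ∈ P, (ct NF p ↔ val F p < 0))
    (w : LTerm) :
    (bev q.lab w = true → DedekindCut.principal RF ≤ w.eval (asg P Fs ct)) ∧
      (bev q.lab w = false → w.eval (asg P Fs ct) ≤ DedekindCut.principal NF) := by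
  induction w with
  | var x =>
    refine ⟨fun hx => ?_, fun hx => ?_⟩
    · exact le_sSup ⟨RF, F, hF, q, hq, h0, h1, hx, hRF, rfl⟩
    · refine sSup_le ?_
      rintro d ⟨R, F', hF', q', hq', h0', h1', hx', hR, rfl⟩
      rw [DedekindCut.principal_le_principal, hr.le]
      intro p hp hRp
      have hpq : p = q' := by
        by_contra hne
        have h2 := h1' p hp hne
        have h3 := (hR p hp).1 hRp
        exact lt_asymm h2 h3
      have hqq : p ≠ q := by
        intro h
        have h4 : q.lab x = false := hx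
        rw [hpq] at h
        rw [h, h4] at hx'
        exact Bool.false_ne_true hx'
      exact (hNF p hp).2 (h1 p hp hqq)
  | sup s t hs ht =>
    refine ⟨fun hx => ?_, fun hx => ?_⟩
    · have hx' : bev q.lab s = true ∨ bev q.lab t = true := by
        simpa [bev] using hx
      rcases hx' with h | h
      · exact (hs.1 h).trans le_sup_left
      · exact (ht.1 h).trans le_sup_right
    · have hx' : bev q.lab s = false ∧ bev q.lab t = false := by
        simpa [bev] using hx
      exact sup_le (hs.2 hx'.1) (ht.2 hx'.2)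
  | inf s t hs ht =>
    refine ⟨fun hx => ?_, fun hx => ?_⟩
    · have hx' : bev q.lab s = true ∧ bev q.lab t = true := by
        simpa [bev] using hx
      exact le_inf (hs.1 hx'.1) (ht.1 hx'.2)
    · have hx' : bev q.lab s = false ∨ bev q.lab t = false := by
        have : (bev q.lab s && bev q.lab t) = false := hx
        rcases h : bev q.lab s with _ | _
        · exact Or.inl rfl
        · rw [h, Bool.true_and] at this
          exact Or.inr this
      rcases hx' with h | h
      · exact inf_le_left.trans (hs.2 h)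
      · exact inf_le_right.trans (ht.2 h)

omit [PartialOrder Q] in
/-- Certified points belong to the configuration. -/
theorem mem {β : Bool} {w : LTerm} {q : Pt} (h : Dv P Fs β w q) : q ∈ P := by
  induction h with
  | leaf _ hq => exact hq
  | supl _ ih => exact ih
  | supr _ ih => exact ih
  | infl _ ih => exact ih
  | infr _ ih => exact ih
  | up hq => exact hq
  | dn hq => exact hq

/-- The claim. -/
def Gd (P : List Pt) (Fs : List Pl) (ct : Q → Pt → Prop) (β : Bool) (w : LTerm) (q : Pt) : Prop :=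
  (β = true → ∃ R : Q, DedekindCut.principal R ≤ w.eval (asg P Fs ct) ∧ ct R q) ∧
    (β = false → ∃ R : Q, w.eval (asg P Fs ct) ≤ DedekindCut.principal R ∧ ¬ ct R q)

theorem claim (hr : Rep P Fs ct) (gen : ∀ F ∈ Fs, ∀ p ∈ P, val F p ≠ 0) {β : Bool} {w : LTerm}
    {q : Pt} (h : Dv P Fs β w q) : Gd P Fs ct β w q := by
  induction h with
  | @leaf q F β w hq hF h0 h1 hb =>
    obtain ⟨RF, hRF⟩ := hr.pos F hF
    obtain ⟨NF, hNF⟩ := hr.neg F hF
    obtain ⟨l1, l2⟩ := leaf_aux hr hq hF h0 h1 hRF hNF w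
    refine ⟨fun hβ => ⟨RF, l1 (hb.trans hβ), (hRF q hq).2 h0⟩,
      fun hβ => ⟨NF, l2 (hb.trans hβ), fun hc => ?_⟩⟩
    exact lt_asymm h0 ((hNF q hq).1 hc)
  | supl _ ih =>
    refine ⟨fun _ => ?_, fun hβ => absurd hβ (by decide)⟩
    obtain ⟨R, h1, h2⟩ := ih.1 rfl
    exact ⟨R, h1.trans le_sup_left, h2⟩
  | supr _ ih =>
    refine ⟨fun _ => ?_, fun hβ => absurd hβ (by decide)⟩
    obtain ⟨R, h1, h2⟩ := ih.1 rfl
    exact ⟨R, h1.trans le_sup_right, h2⟩
  | infl _ ih =>
    refine ⟨fun hβ => absurd hβ (by decide), fun _ => ?_⟩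
    obtain ⟨R, h1, h2⟩ := ih.2 rfl
    exact ⟨R, inf_le_left.trans h1, h2⟩
  | infr _ ih =>
    refine ⟨fun hβ => absurd hβ (by decide), fun _ => ?_⟩
    obtain ⟨R, h1, h2⟩ := ih.2 rfl
    exact ⟨R, inf_le_right.trans h1, h2⟩
  | @up q y z y' z' F s t hq hF h0 _ my mz hb my' mz' hb' ih iy iz iy' iz' =>
    refine ⟨fun _ => ?_, fun hβ => absurd hβ (by decide)⟩
    obtain ⟨RF, hRF⟩ := hr.pos F hF
    have key : ∀ (u : LTerm) (a b : Pt), (s.inf t).eval (asg P Fs ct) ≤ u.eval (asg P Fs ct) →
        a ∈ P → b ∈ P → Gd P Fs ct true u a → Gd P Fs ct true u b → Btw q a b →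
        DedekindCut.principal RF ≤ u.eval (asg P Fs ct) := by
      intro u a b hu maP mbP ha hb' hab
      refine prin_le fun R hR => ?_
      rw [hr.le]
      intro p hp hRp
      by_cases hpq : p = q
      · rw [hpq]
        obtain ⟨R1, h1, h1'⟩ := ha.1 rfl
        obtain ⟨R2, h2, h2'⟩ := hb'.1 rfl
        have k1 : DedekindCut.principal R1 ≤ DedekindCut.principal R := h1.trans hR
        have k2 : DedekindCut.principal R2 ≤ DedekindCut.principal R := h2.trans hR
        rw [DedekindCut.principal_le_principal, hr.le] at k1 k2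
        exact hr.cv R q a b hab (k1 a maP h1') (k2 b mbP h2')
      · obtain ⟨R1, h1, h1'⟩ := (ih p hp hpq ((hRF p hp).1 hRp)).1 rfl
        have k1 : DedekindCut.principal R1 ≤ DedekindCut.principal R := (h1.trans hu).trans hR
        rw [DedekindCut.principal_le_principal, hr.le] at k1
        exact k1 p hp h1'
    exact ⟨RF, le_inf (key s y z inf_le_left (mem my) (mem mz) iy iz hb)
      (key t y' z' inf_le_right (mem my') (mem mz') iy' iz' hb'), (hRF q hq).2 h0⟩
  | @dn q y z y' z' F s t hq hF h0 _ my mz hb my' mz' hb' ih iy iz iy' iz' =>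
    refine ⟨fun hβ => absurd hβ (by decide), fun _ => ?_⟩
    obtain ⟨NF, hNF⟩ := hr.neg F hF
    have key : ∀ (u : LTerm) (a b : Pt), u.eval (asg P Fs ct) ≤ (s.sup t).eval (asg P Fs ct) →
        a ∈ P → b ∈ P → Gd P Fs ct false u a → Gd P Fs ct false u b → Btw q a b →
        u.eval (asg P Fs ct) ≤ DedekindCut.principal NF := by
      intro u a b hu maP mbP ha hb' hab
      refine le_prin fun R hR => ?_
      rw [hr.le]
      intro p hp hRp
      rw [hNF p hp]
      by_contra hcon
      have hpos : 0 < val F p := lt_of_le_of_ne (not_lt.1 hcon) (gen F hF p hp).symm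
      by_cases hpq : p = q
      · rw [hpq] at hRp
        obtain ⟨R1, h1, h1'⟩ := ha.2 rfl
        obtain ⟨R2, h2, h2'⟩ := hb'.2 rfl
        have k1 : DedekindCut.principal R ≤ DedekindCut.principal R1 := hR.trans h1
        have k2 : DedekindCut.principal R ≤ DedekindCut.principal R2 := hR.trans h2
        rw [DedekindCut.principal_le_principal, hr.le] at k1 k2
        exact hr.cv' R q a b hab (fun h => h1' (k1 a maP h)) (fun h => h2' (k2 b mbP h)) hRp
      · obtain ⟨R1, h1, h1'⟩ := (ih p hp hpq hpos).2 rfl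
        have k1 : DedekindCut.principal R ≤ DedekindCut.principal R1 := (hR.trans hu).trans h1
        rw [DedekindCut.principal_le_principal, hr.le] at k1
        exact h1' (k1 p hp hRp)
    refine ⟨NF, sup_le (key s y z le_sup_left (mem my) (mem mz) iy iz hb)
      (key t y' z' le_sup_right (mem my') (mem mz') iy' iz' hb'), fun hc => ?_⟩
    exact lt_asymm h0 ((hNF q hq).1 hc)

theorem fails (hr : Rep P Fs ct) (gen : ∀ F ∈ Fs, ∀ p ∈ P, val F p ≠ 0) {s t : LTerm} {q : Pt}
    (hs : Dv P Fs true s q) (ht : Dv P Fs false t q) :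
    ¬ s.eval (asg P Fs ct) ≤ t.eval (asg P Fs ct) := by
  intro h
  obtain ⟨R1, h1, h1'⟩ := (claim hr gen hs).1 rfl
  obtain ⟨R2, h2, h2'⟩ := (claim hr gen ht).2 rfl
  have k : DedekindCut.principal R1 ≤ DedekindCut.principal R2 := (h1.trans h).trans h2
  rw [DedekindCut.principal_le_principal, hr.le] at k
  exact h2' (k q (mem hs) h1')

end abstract

/-! ### The arrangement -/

/-- The normal vector of a point. -/
def pvec (p : Pt) : Fin 4 → ℝ := ![p.x, p.y, p.h, 1]

/-- The base vector. -/
def bvec : Fin 4 → ℝ := ![0, 0, 0, 1]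

/-- The vector of a plane. -/
def rvec (F : Pl) : Fin 4 → ℝ := ![F.a, F.b, -1, F.c]

theorem dot_b (p : Pt) : 0 < dotL (pvec p) bvec := by
  rw [dotL_apply, Fin.sum_univ_four]
  simp [pvec, bvec]

theorem dot_r (p : Pt) (F : Pl) : dotL (pvec p) (rvec F) = - val F p := by
  rw [dotL_apply, Fin.sum_univ_four]
  simp [pvec, rvec, val]
  ring

theorem dot_btw {q y z : Pt} {r : Fin 4 → ℝ} {l : ℝ} (h1 : q.x = l * y.x + (1 - l) * z.x)
    (h2 : q.y = l * y.y + (1 - l) * z.y) (h3 : q.h = l * y.h + (1 - l) * z.h) :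
    dotL (pvec q) r = l * dotL (pvec y) r + (1 - l) * dotL (pvec z) r := by
  simp only [dotL_apply, Fin.sum_univ_four]
  simp [pvec, h1, h2, h3]
  ring

end SEM

open SEM

theorem sem : S_sem := by
  intro P Fs s t q gen hs ht
  let vec : Fin P.length → (Fin 4 → ℝ) := fun i => pvec (P.get i)
  have hb : ∀ i, 0 < dotL (vec i) bvec := fun i => dot_b _
  let A := arr vec bvec hb
  let B : A.Region := baseRegion hb
  let rep : Pos A B → (Fin 4 → ℝ) := fun R => (Region.nonempty (show A.Region from R)).choose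
  have hrep : ∀ R : Pos A B, rep R ∈ (show A.Region from R).1 :=
    fun R => (Region.nonempty (show A.Region from R)).choose_spec
  let ct : Pos A B → Pt → Prop := fun R p => dotL (pvec p) (rep R) < 0
  have hlist : ∀ φ : Pt → Prop, (∀ i : Fin P.length, φ (P.get i)) ↔ ∀ p ∈ P, φ p := by
    intro φ
    constructor
    · intro h p hp
      obtain ⟨i, rfl⟩ := List.mem_iff_get.1 hp
      exact h i
    · intro h i
      exact h _ (List.get_mem P i)
  have hmem : ∀ (x : Fin 4 → ℝ) (hx : x ∈ A.complement) (p : Pt), p ∈ P →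
      (ct (posOf B x hx) p ↔ dotL (pvec p) x < 0) := by
    intro x hx p hp
    obtain ⟨i, rfl⟩ := List.mem_iff_get.1 hp
    constructor
    · exact (arr_le_iff hb (R := posOf B x hx) (R' := posOf B x hx) (hrep _)
        (mem_posOf B x hx)).1 le_rfl i
    · exact (arr_le_iff hb (R := posOf B x hx) (R' := posOf B x hx) (mem_posOf B x hx)
        (hrep _)).1 le_rfl i
  have hr : Rep P Fs ct := by
    refine ⟨fun R R' => ?_, fun R q y z h hy hz => ?_, fun R q y z h hy hz => ?_,
      fun F hF => ?_, fun F hF => ?_⟩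
    · exact (arr_le_iff hb (hrep R) (hrep R')).trans
        (hlist fun p => dotL (pvec p) (rep R) < 0 → dotL (pvec p) (rep R') < 0)
    · obtain ⟨l, l0, l1, h1, h2, h3⟩ := h
      change dotL (pvec q) (rep R) < 0
      rw [dot_btw h1 h2 h3]
      have hy' : dotL (pvec y) (rep R) < 0 := hy
      have hz' : dotL (pvec z) (rep R) < 0 := hz
      have e1 := mul_neg_of_pos_of_neg l0 hy'
      have e2 := mul_neg_of_pos_of_neg (sub_pos.2 l1) hz'
      linarith
    · obtain ⟨l, l0, l1, h1, h2, h3⟩ := h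
      change ¬ dotL (pvec q) (rep R) < 0
      rw [dot_btw h1 h2 h3]
      have hy' : 0 ≤ dotL (pvec y) (rep R) := not_lt.1 hy
      have hz' : 0 ≤ dotL (pvec z) (rep R) := not_lt.1 hz
      have e1 := mul_nonneg l0.le hy'
      have e2 := mul_nonneg (sub_pos.2 l1).le hz'
      linarith
    · have hx : rvec F ∈ A.complement := by
        refine mem_arr_complement hb fun i => ?_
        change dotL (pvec (P.get i)) (rvec F) ≠ 0
        rw [dot_r]
        exact neg_ne_zero.2 (gen F hF _ (List.get_mem P i))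
      refine ⟨posOf B (rvec F) hx, fun p hp => ?_⟩
      rw [hmem _ hx p hp, dot_r]
      exact neg_lt_zero
    · have hx : -rvec F ∈ A.complement := by
        refine mem_arr_complement hb fun i => ?_
        change dotL (pvec (P.get i)) (-rvec F) ≠ 0
        rw [map_neg, dot_r, neg_neg]
        exact gen F hF _ (List.get_mem P i)
      refine ⟨posOf B (-rvec F) hx, fun p hp => ?_⟩
      rw [hmem _ hx p hp, map_neg, dot_r, neg_neg]
  exact ⟨A, B, asg P Fs ct, fails hr gen hs ht⟩

end R761.PosId
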